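import Pool.Agent.Helper1.UB.LW

/-! MP_be0fb5, universal bound, second scheme: the module N1 (position cut) in the form of `LW2_Skel`. -/

set_option autoImplicit false

namespace Pool.Agent.Helper1.LW2

open Matrix Pool.Agent.Helper12.LW
open Pool.Agent.Helper1.UB
open Pool.Agent.Helper84.FL (pz pr)

/-- four points whose slack matrix is invertible force the separators to span -/
theorem span_of_det (v : Fin 4 → Fin 3 → ℝ) (b : Fin 4 → ℝ)
    (x : Fin 4 → Fin 3 → ℝ) (hdet : (Matrix.of fun j k => b j - pr (v j) (x k)).det ≠ 0)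
    (m : Fin 3 → ℝ) : ∃ c : Fin 4 → ℝ, ∑ k, c k • v k = m := by
  set N : Matrix (Fin 4) (Fin 4) ℝ := Matrix.of fun j => ![b j, -v j 0, -v j 1, -v j 2] with hN
  set X : Matrix (Fin 4) (Fin 4) ℝ := Matrix.of fun i k => (![1, x k 0, x k 1, x k 2] : Fin 4 → ℝ) i
    with hX
  have hNX : N * X = Matrix.of fun j k => b j - pr (v j) (x k) := by
    ext j k
    rw [Matrix.mul_apply, Fin.sum_univ_four]
    simp only [hN, hX, Matrix.of_apply, Matrix.cons_val_zero, Matrix.cons_val_one, Matrix.cons_val]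
    unfold Pool.Agent.Helper84.FL.pr
    rw [Fin.sum_univ_three]
    ring
  have hNdet : IsUnit N.det := by
    rw [isUnit_iff_ne_zero]
    intro h
    rw [← hNX, Matrix.det_mul, h, zero_mul] at hdet
    exact hdet rfl
  set r : Fin 4 → ℝ := ![0, -m 0, -m 1, -m 2] with hr
  have h1 : (r ᵥ* N⁻¹) ᵥ* N = r := by
    rw [Matrix.vecMul_vecMul, Matrix.nonsing_inv_mul N hNdet, Matrix.vecMul_one]
  set c := r ᵥ* N⁻¹ with hc
  refine ⟨c, ?_⟩
  have e : ∀ i : Fin 4, ∑ j, c j * N j i = r i := fun i => congrFun h1 i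
  funext i
  rw [Finset.sum_apply]
  simp only [Pi.smul_apply, smul_eq_mul]
  fin_cases i
  · have h2 := e 1
    simp only [hN, hr, Matrix.of_apply, Matrix.cons_val_one, Matrix.cons_val_zero, mul_neg,
      Finset.sum_neg_distrib, neg_inj] at h2
    exact h2
  · have h2 := e 2
    simp only [hN, hr, Matrix.of_apply, Matrix.cons_val, mul_neg, Finset.sum_neg_distrib, neg_inj] at h2
    exact h2
  · have h2 := e 3
    simp only [hN, hr, Matrix.of_apply, Matrix.cons_val, mul_neg, Finset.sum_neg_distrib, neg_inj] at h2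
    exact h2

theorem sum_ite_erase (i : Fin 4) (f : Fin 4 → ℝ) :
    ∑ k, (if k = i then 0 else f k) = ∑ k ∈ Finset.univ.erase i, f k := by
  rw [← Finset.add_sum_erase _ _ (Finset.mem_univ i), if_pos rfl, zero_add]
  exact Finset.sum_congr rfl (fun k hk => if_neg (Finset.ne_of_mem_erase hk))

/-- the barycentric coordinates with respect to the four points are positive. -/
theorem beta_pos (T : Fin 4 → Fin 4 → ℝ) (hT0 : ∀ i k, 0 ≤ T i k) (hcol : ∀ k, ∑ i, T i k = 1)
    (th : Fin 4 → ℝ) (h0 : ∀ k, 0 ≤ th k) (h1 : ∀ k, th k < 1 / 2) (hs : ∑ k, th k ≤ 1)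
    (hr : ∀ k, 1 - th k ≤ T k k) (L β : Fin 4 → ℝ) (hβ : ∀ i, ∑ k, T i k * β k = L i)
    (h : ∀ i, ∑ k, (if k = i then 0 else T i k / T k k * L k) < L i) : ∀ k, 0 < β k := by
  obtain ⟨m, -, hm⟩ := Finset.exists_min_image Finset.univ β ⟨0, Finset.mem_univ _⟩
  have hm' : ∀ k, β m ≤ β k := fun k => hm k (Finset.mem_univ k)
  suffices h5 : 0 < β m from fun i => lt_of_lt_of_le h5 (hm' i)
  by_contra hneg
  push Not at hneg
  have hTpos : ∀ k, 0 < T k k := fun k => by linarith [h1 k, hr k]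
  have hoff : ∀ i k, i ≠ k → T i k ≤ th k := by
    intro i k hik
    have h2 := hcol k
    rw [← Finset.add_sum_erase _ _ (Finset.mem_univ k)] at h2
    have h3 := Finset.single_le_sum (s := Finset.univ.erase k) (f := fun i => T i k)
      (fun j _ => hT0 j k) (Finset.mem_erase.2 ⟨hik, Finset.mem_univ i⟩)
    have h4 := hr k
    linarith
  have hthsum : ∀ k, ∑ l ∈ Finset.univ.erase k, th l ≤ 1 - th k := by
    intro k
    rw [← Finset.add_sum_erase _ _ (Finset.mem_univ k)] at hs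
    linarith
  have hrow : ∀ k, ∑ l ∈ Finset.univ.erase k, T k l ≤ 1 - th k := by
    intro k
    refine le_trans (Finset.sum_le_sum (fun l hl => ?_)) (hthsum k)
    exact hoff k l (Ne.symm (Finset.ne_of_mem_erase hl))
  -- expand the slacks
  have hLk : ∀ k, L k = T k k * β k + ∑ l ∈ Finset.univ.erase k, T k l * β l := by
    intro k
    rw [← hβ k, ← Finset.add_sum_erase _ _ (Finset.mem_univ k)]
  have hbelow : ∀ k, (1 - th k) * β m ≤ ∑ l ∈ Finset.univ.erase k, T k l * β l := by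
    intro k
    have h2 : ∑ l ∈ Finset.univ.erase k, T k l * β m ≤ ∑ l ∈ Finset.univ.erase k, T k l * β l :=
      Finset.sum_le_sum (fun l _ => mul_le_mul_of_nonneg_left (hm' l) (hT0 k l))
    rw [← Finset.sum_mul] at h2
    nlinarith [hrow k]
  have hterm : ∀ k, k ≠ m → T m k * β k + th k * β m ≤ T m k / T k k * L k := by
    intro k hk
    have h2 := hTpos k
    have h3 := hoff m k (Ne.symm hk)
    have h4 := hr k
    have h6 : 0 ≤ T m k / T k k := div_nonneg (hT0 m k) h2.le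
    have h7 : T m k / T k k * (1 - th k) ≤ th k := by
      rw [div_mul_eq_mul_div, div_le_iff₀ h2]
      have := h1 k
      have := hT0 m k
      have := h0 k
      nlinarith
    rw [hLk k, mul_add]
    have h8 : T m k / T k k * (T k k * β k) = T m k * β k := by
      field_simp
    rw [h8]
    have h9 := mul_le_mul_of_nonneg_left (hbelow k) h6
    nlinarith
  have h10 := h m
  rw [sum_ite_erase, hLk m] at h10
  have h11 : ∑ k ∈ Finset.univ.erase m, (T m k * β k + th k * β m) ≤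
      ∑ k ∈ Finset.univ.erase m, T m k / T k k * L k :=
    Finset.sum_le_sum (fun k hk => hterm k (Finset.ne_of_mem_erase hk))
  rw [Finset.sum_add_distrib, ← Finset.sum_mul] at h11
  have h12 := hthsum m
  have h13 := hr m
  nlinarith

/-- **N1 (position cut)** without the pair condition: `K` misses the lattice point `z`; `x k` is a point of `K`
with slack at least `1 - th k` at the separator `k`. -/
theorem cut2' (K : Set (Fin 3 → ℝ)) (hK : LFree K) (P : Fin 4 → Fin 3 → ℤ) (v : Fin 4 → Fin 3 → ℝ)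
    (hv : Sep4 K P v) (z : Fin 3 → ℤ) (th : Fin 4 → ℝ) (h0 : ∀ k, 0 ≤ th k) (h1 : ∀ k, th k < 1 / 2)
    (hs : ∑ k, th k ≤ 1)
    (x : Fin 4 → Fin 3 → ℝ) (hx : ∀ k, x k ∈ K) (hr : ∀ k, 1 - th k ≤ v k ⬝ᵥ (toR (P k) - x k)) :
    ∃ i : Fin 4, v i ⬝ᵥ (toR (P i) - toR z) ≤
      ∑ k, if k = i then 0 else v i ⬝ᵥ (toR (P i) - x k) / (v k ⬝ᵥ (toR (P k) - x k)) *
        (v k ⬝ᵥ (toR (P k) - toR z)) := by
  obtain ⟨n, R, hn0, hsep, -⟩ := exists_sep K hK.convex hK.compact.isBounded hK.interior_nonempty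
    hK.free
  by_contra hcon
  push Not at hcon
  have hsum : ∀ y : Fin 3 → ℝ, ∑ j, v j ⬝ᵥ (toR (P j) - y) = 1 := by
    intro y
    have h2 : ∑ j, v j ⬝ᵥ y = (∑ j, v j) ⬝ᵥ y := by
      simp only [dotProduct, Finset.sum_apply, Finset.sum_mul]
      exact Finset.sum_comm
    simp only [dotProduct_sub]
    rw [Finset.sum_sub_distrib, hv.norm_one, h2, hv.sum_zero, zero_dotProduct, sub_zero]
  set T : Fin 4 → Fin 4 → ℝ := fun i k => v i ⬝ᵥ (toR (P i) - x k) with hT
  set L : Fin 4 → ℝ := fun i => v i ⬝ᵥ (toR (P i) - toR z) with hL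
  have hT0 : ∀ i k, 0 ≤ T i k := by
    intro i k
    rw [hT]
    simp only
    rw [dotProduct_sub]
    exact sub_nonneg.2 (hv.sep i _ (hx k))
  have hcol : ∀ k, ∑ i, T i k = 1 := fun k => hsum (x k)
  have hL1 : ∑ i, L i = 1 := hsum (toR z)
  have hr' : ∀ k, 1 - th k ≤ T k k := hr
  have hTpos : ∀ k, 0 < T k k := fun k => by linarith [h1 k, hr' k]
  have hcolk : ∀ k, ∑ i ∈ Finset.univ.erase k, T i k ≤ th k := by
    intro k
    have h2 := hcol k
    rw [← Finset.add_sum_erase _ _ (Finset.mem_univ k)] at h2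
    have h4 := hr' k
    linarith
  have hoff : ∀ i k, i ≠ k → T i k ≤ th k := by
    intro i k hik
    have h3 := Finset.single_le_sum (s := Finset.univ.erase k) (f := fun i => T i k)
      (fun j _ => hT0 j k) (Finset.mem_erase.2 ⟨hik, Finset.mem_univ i⟩)
    exact h3.trans (hcolk k)
  have hcon' : ∀ i, ∑ k, (if k = i then 0 else T i k / T k k * L k) < L i := hcon
  have hdet : (Matrix.of T).det ≠ 0 := by
    apply det_ne_zero_of_sum_col_lt_diag
    intro k
    have h2 : ∑ i ∈ Finset.univ.erase k, ‖Matrix.of T i k‖ = ∑ i ∈ Finset.univ.erase k, T i k := by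
      refine Finset.sum_congr rfl (fun i _ => ?_)
      rw [Matrix.of_apply, Real.norm_eq_abs, abs_of_nonneg (hT0 i k)]
    rw [h2, Matrix.of_apply, Real.norm_eq_abs, abs_of_nonneg (hT0 k k)]
    have := hcolk k
    have := h1 k
    have := hr' k
    linarith
  have hTu : IsUnit (Matrix.of T).det := isUnit_iff_ne_zero.2 hdet
  set β : Fin 4 → ℝ := (Matrix.of T)⁻¹ *ᵥ L with hβdef
  have hβ : ∀ i, ∑ k, T i k * β k = L i := by
    intro i
    have h2 : (Matrix.of T) *ᵥ β = L := by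
      rw [hβdef, Matrix.mulVec_mulVec, Matrix.mul_nonsing_inv _ hTu, Matrix.one_mulVec]
    exact congrFun h2 i
  have hβpos := beta_pos T hT0 hcol th h0 h1 hs hr' L β hβ hcon'
  have hβ1 : ∑ k, β k = 1 := by
    rw [← hL1]
    simp only [← hβ]
    rw [Finset.sum_comm]
    simp only [← Finset.sum_mul, hcol, one_mul]
  -- the separator of the point
  have hTT : (Matrix.of fun j k => pz (v j) (P j) - pr (v j) (x k)) = Matrix.of T := by
    ext j k
    simp only [Matrix.of_apply, hT]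
    rw [dotProduct_sub]
    rfl
  obtain ⟨c, hc⟩ := span_of_det v (fun j => pz (v j) (P j)) x (by rw [hTT]; exact hdet) (n z)
  have hn : ∀ y : Fin 3 → ℝ, n z ⬝ᵥ (toR z - y) = ∑ j, c j * (v j ⬝ᵥ (toR (P j) - y) - L j) := by
    intro y
    rw [← hc]
    have h2 : (∑ k, c k • v k) ⬝ᵥ (toR z - y) = ∑ k, c k * (v k ⬝ᵥ (toR z - y)) := by
      simp only [dotProduct, Finset.sum_apply, Finset.sum_mul, Pi.smul_apply, smul_eq_mul,
        Finset.mul_sum]
      rw [Finset.sum_comm]
      refine Finset.sum_congr rfl (fun k _ => Finset.sum_congr rfl (fun i _ => by ring))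
    rw [h2]
    refine Finset.sum_congr rfl (fun k _ => ?_)
    simp only [hL, dotProduct_sub]
    ring
  have hnx : ∀ k, 0 ≤ n z ⬝ᵥ (toR z - x k) := by
    intro k
    rw [dotProduct_sub]
    exact sub_nonneg.2 (hsep z (x k) (hx k))
  have hsum0 : ∑ k, β k * (n z ⬝ᵥ (toR z - x k)) = 0 := by
    simp only [hn, Finset.mul_sum]
    rw [Finset.sum_comm]
    refine Finset.sum_eq_zero (fun j _ => ?_)
    have h2 : ∀ k, β k * (c j * (v j ⬝ᵥ (toR (P j) - x k) - L j)) =
        c j * (T j k * β k) - c j * L j * β k := by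
      intro k
      simp only [hT]
      ring
    simp only [h2]
    rw [Finset.sum_sub_distrib, ← Finset.mul_sum, ← Finset.mul_sum, hβ, hβ1]
    ring
  have hz0 : ∀ k, n z ⬝ᵥ (toR z - x k) = 0 := by
    intro k
    have h2 := (Finset.sum_eq_zero_iff_of_nonneg
      (fun k _ => mul_nonneg (hβpos k).le (hnx k))).1 hsum0 k (Finset.mem_univ k)
    rcases mul_eq_zero.1 h2 with h3 | h3
    · exact absurd h3 (hβpos k).ne'
    · exact h3
  -- so the separator vanishes
  set s : ℝ := ∑ j, c j * L j with hs'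
  have h3 : (fun j => c j - s) ᵥ* (Matrix.of T) = 0 := by
    funext k
    have h4 := hz0 k
    rw [hn] at h4
    simp only [mul_sub] at h4
    rw [Finset.sum_sub_distrib] at h4
    simp only [Matrix.vecMul, dotProduct, Matrix.of_apply, Pi.zero_apply, sub_mul]
    rw [Finset.sum_sub_distrib, ← Finset.mul_sum, hcol, mul_one]
    exact h4
  have h4 : (fun j => c j - s) = 0 := by
    have h5 : ((fun j => c j - s) ᵥ* (Matrix.of T)) ᵥ* (Matrix.of T)⁻¹ = 0 := by
      rw [h3, Matrix.zero_vecMul]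
    rwa [Matrix.vecMul_vecMul, Matrix.mul_nonsing_inv _ hTu, Matrix.vecMul_one] at h5
  apply hn0 z
  rw [← hc]
  have h5 : ∀ j, c j = s := fun j => by
    have := congrFun h4 j
    simp only [Pi.zero_apply] at this
    linarith
  simp only [h5]
  rw [← Finset.smul_sum, hv.sum_zero, smul_zero]

/-- **N1 (position cut)** in the form of `LW2_Skel` (the pair condition is not used). -/
theorem cut2 (K : Set (Fin 3 → ℝ)) (hK : LFree K) (P : Fin 4 → Fin 3 → ℤ) (v : Fin 4 → Fin 3 → ℝ)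
    (hv : Sep4 K P v) (z : Fin 3 → ℤ) (th : Fin 4 → ℝ) (h0 : ∀ k, 0 ≤ th k) (h1 : ∀ k, th k < 1 / 2)
    (hs : ∑ k, th k ≤ 1) (_hp : ∀ j k, j ≠ k → th j / (1 - th j) + th k / (1 - th k) ≤ 1)
    (x : Fin 4 → Fin 3 → ℝ) (hx : ∀ k, x k ∈ K) (hr : ∀ k, 1 - th k ≤ v k ⬝ᵥ (toR (P k) - x k)) :
    ∃ i : Fin 4, v i ⬝ᵥ (toR (P i) - toR z) ≤
      ∑ k, if k = i then 0 else v i ⬝ᵥ (toR (P i) - x k) / (v k ⬝ᵥ (toR (P k) - x k)) *
        (v k ⬝ᵥ (toR (P k) - toR z)) :=
  cut2' K hK P v hv z th h0 h1 hs x hx hr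

end Pool.Agent.Helper1.LW2
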